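import Mathlib

/-!
A `C^1` map of the unit interval.
-/

open Filter Finset Topology Real

namespace Pool.Agent.R865.SA

noncomputable def d (m : ℕ) : ℝ := (1 / 4) ^ (m + 1)
noncomputable def a (m : ℕ) : ℝ := 1 / 4 - d m
noncomputable def b (m : ℕ) : ℝ := 3 / 4 + d m
noncomputable def r (m : ℕ) : ℝ := a m + d m / 2
noncomputable def S (m : ℕ) : ℝ := (1 + d m) / d m
noncomputable def Lam : ℕ → ℝ
  | 0 => 1
  | m + 1 => Lam m * S m
noncomputable def v (m : ℕ) : ℝ := (1 / 2 + 2 * d m) / Lam m
noncomputable def w (m : ℕ) : ℝ := d m ^ 2 / 2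
noncomputable def lam (m : ℕ) (t : ℝ) : ℝ := (3 / 4 * d m + (t - a m) * S m) / Lam m
noncomputable def chi (m : ℕ) (t : ℝ) : ℝ :=
  smoothTransition ((t - a m + w m) / w m) * smoothTransition ((r m + w m - t) / w m)
noncomputable def g1 (m : ℕ) (t : ℝ) : ℝ := lam m t * chi m t
noncomputable def g2 (m : ℕ) (t : ℝ) : ℝ :=
  (v m - v (m + 1)) * smoothTransition ((t - b (m + 1)) / (3 / 4 * d m))
noncomputable def f (t : ℝ) : ℝ := ∑' m, g1 m t + ∑' m, g2 m t

theorem d_pos (m : ℕ) : 0 < d m := by unfold d; positivity
theorem d_succ (m : ℕ) : d (m + 1) = d m / 4 := by unfold d; rw [pow_succ]; ring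
theorem d_le (m : ℕ) : d m ≤ 1 / 4 := by
  unfold d
  calc ((1 : ℝ) / 4) ^ (m + 1) ≤ (1 / 4) ^ 1 := pow_le_pow_of_le_one (by norm_num) (by norm_num) (by omega)
    _ = _ := pow_one _
theorem S_pos (m : ℕ) : 0 < S m := by unfold S; have := d_pos m; positivity
theorem Lam_pos (m : ℕ) : 0 < Lam m := by
  induction m with
  | zero => simp [Lam]
  | succ m ih => simp only [Lam]; have := S_pos m; positivity
theorem w_pos (m : ℕ) : 0 < w m := by unfold w; have := d_pos m; positivity
theorem v_pos (m : ℕ) : 0 < v m := by unfold v; have := d_pos m; have := Lam_pos m; positivity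
theorem d_mul_S (m : ℕ) : d m * S m = 1 + d m := by
  unfold S; have := (d_pos m).ne'; field_simp
theorem Lam_v (m : ℕ) : Lam m * v m = 1 / 2 + 2 * d m := by
  unfold v; have := (Lam_pos m).ne'; field_simp
theorem Lam_v_succ (m : ℕ) : Lam m * v (m + 1) = d m / 2 := by
  have h1 := Lam_v (m + 1)
  simp only [Lam] at h1
  have h2 := S_pos m
  have h3 := d_mul_S m
  have h4 : Lam m * v (m + 1) * S m = d m / 2 * S m := by
    rw [d_succ] at h1
    calc Lam m * v (m + 1) * S m = Lam m * S m * v (m + 1) := by ring
      _ = 1 / 2 + 2 * (d m / 4) := h1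
      _ = (d m * S m) / 2 := by rw [h3]; ring
      _ = _ := by ring
  exact mul_right_cancel₀ h2.ne' h4
theorem v_succ_lt (m : ℕ) : v (m + 1) < v m := by
  have h := Lam_pos m
  have h1 := Lam_v m
  have h2 := Lam_v_succ m
  have h3 := d_pos m
  by_contra hc
  push Not at hc
  have := mul_le_mul_of_nonneg_left hc h.le
  linarith
theorem v_anti : Antitone v := antitone_nat_of_succ_le fun m => (v_succ_lt m).le

theorem S_ge (m : ℕ) (hm : 2 ≤ m) : 64 ≤ S m := by
  unfold S
  have h1 := d_pos m
  rw [le_div_iff₀ h1]
  have h2 : d m ≤ 1 / 64 := by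
    unfold d
    calc ((1 : ℝ) / 4) ^ (m + 1) ≤ (1 / 4) ^ 3 :=
          pow_le_pow_of_le_one (by norm_num) (by norm_num) (by omega)
      _ = _ := by norm_num
  linarith

theorem pow_le_Lam (m : ℕ) : (64 : ℝ) ^ m ≤ 64 * Lam m := by
  induction m with
  | zero => simp [Lam]
  | succ m ih =>
    have e0 : S 0 = 5 := by norm_num [S, d]
    have e1 : S 1 = 17 := by norm_num [S, d]
    rcases m with _ | _ | m
    · norm_num [Lam, e0]
    · norm_num [Lam, e0, e1]
    · have h1 := S_ge (m + 2) (by omega)
      have h2 := Lam_pos (m + 2)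
      calc (64 : ℝ) ^ (m + 2 + 1) = 64 ^ (m + 2) * 64 := by ring
        _ ≤ (64 * Lam (m + 2)) * S (m + 2) := by gcongr
        _ = 64 * Lam (m + 2 + 1) := by rw [show Lam (m + 2 + 1) = Lam (m + 2) * S (m + 2) from rfl]; ring

theorem inv_Lam_le (m : ℕ) : (Lam m)⁻¹ ≤ 64 * (1 / 64) ^ m := by
  have h := Lam_pos m
  have h1 := pow_le_Lam m
  rw [inv_le_iff_one_le_mul₀ h, one_div, inv_pow]
  have h2 : (0 : ℝ) < 64 ^ m := by positivity
  calc (1 : ℝ) = (64 ^ m)⁻¹ * 64 ^ m := by field_simp
    _ ≤ (64 ^ m)⁻¹ * (64 * Lam m) := by gcongr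
    _ = _ := by ring

/-! ### the smooth transition -/

theorem exists_M : ∃ M : ℝ, 0 ≤ M ∧ ∀ x, |deriv smoothTransition x| ≤ M := by
  have hc : Continuous (deriv smoothTransition) :=
    (smoothTransition.contDiff (n := 1)).continuous_deriv le_rfl
  obtain ⟨M, hM⟩ := isCompact_Icc.exists_bound_of_continuousOn (s := Set.Icc (0 : ℝ) 1)
    hc.continuousOn
  refine ⟨max M 0, le_max_right _ _, fun x => ?_⟩
  by_cases h : x ∈ Set.Icc (0 : ℝ) 1
  · exact (hM x h).trans (le_max_left _ _)
  · have h0 : deriv smoothTransition x = 0 := by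
      rw [Set.mem_Icc, not_and_or, not_le, not_le] at h
      rcases h with h | h
      · have : smoothTransition =ᶠ[𝓝 x] fun _ => 0 := by
          filter_upwards [eventually_lt_nhds h] with y hy
          exact smoothTransition.zero_of_nonpos hy.le
        rw [this.deriv_eq, deriv_const]
      · have : smoothTransition =ᶠ[𝓝 x] fun _ => 1 := by
          filter_upwards [eventually_gt_nhds h] with y hy
          exact smoothTransition.one_of_one_le hy.le
        rw [this.deriv_eq, deriv_const]
    rw [h0, abs_zero]
    exact le_max_right _ _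

theorem deriv_zero_of_nonpos {x : ℝ} (h : x ≤ 0) : deriv smoothTransition x = 0 := by
  apply IsLocalMin.deriv_eq_zero
  refine Filter.Eventually.of_forall fun y => ?_
  rw [smoothTransition.zero_of_nonpos h]
  exact smoothTransition.nonneg y

theorem hasDerivAt_st (x : ℝ) : HasDerivAt smoothTransition (deriv smoothTransition x) x :=
  ((smoothTransition.contDiff (n := 1)).differentiable one_ne_zero x).hasDerivAt

/-! ### `C^1` sums -/

theorem c1_tsum (F F' : ℕ → ℝ → ℝ) (u : ℕ → ℝ) (hu : Summable u)
    (hF : ∀ m t, HasDerivAt (F m) (F' m t) t) (hF'c : ∀ m, Continuous (F' m))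
    (hb : ∀ m t, |F' m t| ≤ u m) (t0 : ℝ) (hs : Summable fun m => F m t0) :
    ContDiff ℝ 1 (fun t => ∑' m, F m t) := by
  have h1 : ∀ t, HasDerivAt (fun t => ∑' m, F m t) (∑' m, F' m t) t := fun t =>
    hasDerivAt_tsum hu hF (fun n y => hb n y) hs t
  rw [contDiff_one_iff_deriv]
  refine ⟨fun t => (h1 t).differentiableAt, ?_⟩
  have h2 : deriv (fun t => ∑' m, F m t) = fun t => ∑' m, F' m t := funext fun t => (h1 t).deriv
  rw [h2]
  exact continuous_tsum hF'c hu (fun n y => hb n y)

theorem lam_bound (m : ℕ) (t : ℝ) (h1 : a m - w m ≤ t) (h2 : t ≤ r m + w m) :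
    0 ≤ lam m t ∧ lam m t ≤ v m := by
  have hd := d_pos m
  have hd' := d_le m
  have hS := S_pos m
  have hL := Lam_pos m
  have hdS := d_mul_S m
  unfold lam v
  constructor
  · apply div_nonneg _ hL.le
    have e1 : -(w m) * S m ≤ (t - a m) * S m := by
      apply mul_le_mul_of_nonneg_right _ hS.le; linarith
    have e2 : w m * S m = d m * (1 + d m) / 2 := by
      unfold w
      calc d m ^ 2 / 2 * S m = d m * (d m * S m) / 2 := by ring
        _ = _ := by rw [hdS]
    nlinarith
  · apply div_le_div_of_nonneg_right _ hL.le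
    have e1 : (t - a m) * S m ≤ (d m / 2 + w m) * S m := by
      apply mul_le_mul_of_nonneg_right _ hS.le
      unfold r at h2; linarith
    have e2 : (d m / 2 + w m) * S m = (1 + d m) / 2 + d m * (1 + d m) / 2 := by
      unfold w
      calc (d m / 2 + d m ^ 2 / 2) * S m = (d m * S m) / 2 + d m * (d m * S m) / 2 := by ring
        _ = _ := by rw [hdS]
    nlinarith

theorem contDiff_f1 : ContDiff ℝ 1 (fun t => ∑' m, g1 m t) := by
  obtain ⟨M, hM0, hM⟩ := exists_M
  let F' : ℕ → ℝ → ℝ := fun m t => (S m / Lam m) * chi m t + lam m t *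
    (deriv smoothTransition ((t - a m + w m) / w m) * (1 / w m) *
      smoothTransition ((r m + w m - t) / w m) +
     smoothTransition ((t - a m + w m) / w m) *
      (deriv smoothTransition ((r m + w m - t) / w m) * (-1 / w m)))
  have hst : Continuous (deriv smoothTransition) :=
    (smoothTransition.contDiff (n := 1)).continuous_deriv le_rfl
  have hlamc : ∀ m, Continuous (lam m) := fun m => by unfold lam; fun_prop
  have hchic : ∀ m, Continuous (chi m) := fun m => by
    unfold chi
    exact (smoothTransition.continuous.comp (by fun_prop)).mul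
      (smoothTransition.continuous.comp (by fun_prop))
  refine c1_tsum g1 F' (fun m => (5 / 4 * 4 * 64 + 2 * M * 64 * 32) * (1 / 4) ^ m) ?_
    (fun m t => ?_) (fun m => ?_) (fun m t => ?_) (1 / 2) ?_
  · exact (summable_geometric_of_lt_one (by norm_num) (by norm_num)).mul_left _
  · -- derivative
    have h1 : HasDerivAt (lam m) (S m / Lam m) t := by
      unfold lam
      have := (((((hasDerivAt_id t).sub_const (a m)).mul_const (S m)).const_add
        (3 / 4 * d m)).div_const (Lam m))
      simpa using this
    have h2 : HasDerivAt (fun t => (t - a m + w m) / w m) (1 / w m) t :=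
      (((hasDerivAt_id t).sub_const (a m)).add_const (w m)).div_const (w m)
    have h3 : HasDerivAt (fun t => (r m + w m - t) / w m) (-1 / w m) t :=
      ((hasDerivAt_id t).const_sub (r m + w m)).div_const (w m)
    have h4 := (hasDerivAt_st ((t - a m + w m) / w m)).comp t h2
    have h5 := (hasDerivAt_st ((r m + w m - t) / w m)).comp t h3
    exact h1.mul (h4.mul h5)
  · exact (continuous_const.mul (hchic m)).add ((hlamc m).mul
      (((hst.comp (by fun_prop)).mul continuous_const).mul
        (smoothTransition.continuous.comp (by fun_prop)) |>.add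
        ((smoothTransition.continuous.comp (by fun_prop)).mul
          ((hst.comp (by fun_prop)).mul continuous_const))))
  · have hd := d_pos m
    have hw := w_pos m
    have hL := Lam_pos m
    have hS := S_pos m
    have hLi := inv_Lam_le m
    have hchi : |chi m t| ≤ 1 := by
      unfold chi
      rw [abs_mul, abs_of_nonneg (smoothTransition.nonneg _),
        abs_of_nonneg (smoothTransition.nonneg _)]
      exact mul_le_one₀ (smoothTransition.le_one _) (smoothTransition.nonneg _)
        (smoothTransition.le_one _)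
    have b1 : |S m / Lam m * chi m t| ≤ 5 / 4 * 4 * 64 * (1 / 4) ^ m := by
      rw [abs_mul, abs_of_pos (by positivity)]
      have e1 : S m / Lam m ≤ 5 / 4 * 4 * 64 * (1 / 4) ^ m := by
        have e2 : S m ≤ 5 / 4 * 4 ^ (m + 1) := by
          unfold S
          have e3 : (d m)⁻¹ = 4 ^ (m + 1) := by
            unfold d; rw [← inv_pow]; norm_num
          rw [div_eq_mul_inv, e3]
          have := d_le m
          gcongr
          linarith
        calc S m / Lam m = S m * (Lam m)⁻¹ := div_eq_mul_inv _ _
          _ ≤ (5 / 4 * 4 ^ (m + 1)) * (64 * (1 / 64) ^ m) := by gcongr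
          _ = 5 / 4 * 4 * 64 * (4 ^ m * (1 / 64) ^ m) := by ring
          _ = 5 / 4 * 4 * 64 * (1 / 16) ^ m := by rw [← mul_pow]; norm_num
          _ ≤ _ := by gcongr <;> norm_num
      calc S m / Lam m * |chi m t| ≤ S m / Lam m * 1 := by gcongr
        _ ≤ _ := by rw [mul_one]; exact e1
    have b2 : |lam m t *
        (deriv smoothTransition ((t - a m + w m) / w m) * (1 / w m) *
          smoothTransition ((r m + w m - t) / w m) +
         smoothTransition ((t - a m + w m) / w m) *
          (deriv smoothTransition ((r m + w m - t) / w m) * (-1 / w m)))| ≤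
        2 * M * 64 * 32 * (1 / 4) ^ m := by
      have hpos : 0 ≤ 2 * M * 64 * 32 * (1 / 4 : ℝ) ^ m := by positivity
      by_cases h1 : a m - w m ≤ t
      · by_cases h2 : t ≤ r m + w m
        · obtain ⟨l0, l1⟩ := lam_bound m t h1 h2
          rw [abs_mul, abs_of_nonneg l0]
          have c1 : |deriv smoothTransition ((t - a m + w m) / w m) * (1 / w m) *
              smoothTransition ((r m + w m - t) / w m) +
             smoothTransition ((t - a m + w m) / w m) *
              (deriv smoothTransition ((r m + w m - t) / w m) * (-1 / w m))| ≤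
              2 * M * (1 / w m) := by
            refine (abs_add_le _ _).trans ?_
            rw [abs_mul, abs_mul, abs_mul, abs_mul,
              abs_of_nonneg (smoothTransition.nonneg ((r m + w m - t) / w m)),
              abs_of_nonneg (smoothTransition.nonneg ((t - a m + w m) / w m)),
              abs_of_pos (by positivity : 0 < 1 / w m)]
            have e0 : |(-1) / w m| = 1 / w m := by
              rw [abs_div, abs_neg, abs_one, abs_of_pos hw]
            rw [e0]
            have e1 := hM ((t - a m + w m) / w m)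
            have e2 := hM ((r m + w m - t) / w m)
            have e3 := smoothTransition.le_one ((t - a m + w m) / w m)
            have e4 := smoothTransition.le_one ((r m + w m - t) / w m)
            have e5 := smoothTransition.nonneg ((t - a m + w m) / w m)
            have e6 := smoothTransition.nonneg ((r m + w m - t) / w m)
            calc |deriv smoothTransition ((t - a m + w m) / w m)| * (1 / w m) *
                  smoothTransition ((r m + w m - t) / w m) +
                  smoothTransition ((t - a m + w m) / w m) *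
                  (|deriv smoothTransition ((r m + w m - t) / w m)| * (1 / w m))
                ≤ M * (1 / w m) * 1 + 1 * (M * (1 / w m)) := by gcongr
              _ = _ := by ring
          have c2 : v m ≤ (Lam m)⁻¹ := by
            unfold v
            rw [div_eq_mul_inv]
            have := d_le m
            refine mul_le_of_le_one_left (by positivity) (by linarith)
          have c3 : 1 / w m = 2 * 16 * 16 ^ m := by
            have e3 : (d m)⁻¹ = 4 ^ (m + 1) := by
              unfold d; rw [← inv_pow]; norm_num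
            unfold w
            calc 1 / (d m ^ 2 / 2) = 2 * ((d m)⁻¹) ^ 2 := by field_simp
              _ = 2 * (4 ^ (m + 1)) ^ 2 := by rw [e3]
              _ = 2 * 16 ^ (m + 1) := by rw [← pow_mul, mul_comm (m + 1) 2, pow_mul]; norm_num
              _ = _ := by rw [pow_succ]; ring
          calc lam m t * _ ≤ v m * (2 * M * (1 / w m)) :=
                mul_le_mul l1 c1 (abs_nonneg _) (v_pos m).le
            _ ≤ (64 * (1 / 64) ^ m) * (2 * M * (2 * 16 * 16 ^ m)) := by
                rw [c3]
                have := c2.trans hLi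
                gcongr
            _ = 2 * M * 64 * 32 * (16 ^ m * (1 / 64) ^ m) := by ring
            _ = 2 * M * 64 * 32 * (1 / 4) ^ m := by rw [← mul_pow]; norm_num
        · push Not at h2
          have e1 : (r m + w m - t) / w m ≤ 0 := div_nonpos_of_nonpos_of_nonneg (by linarith) hw.le
          rw [smoothTransition.zero_of_nonpos e1, deriv_zero_of_nonpos e1]
          simpa using hpos
      · push Not at h1
        have e1 : (t - a m + w m) / w m ≤ 0 := div_nonpos_of_nonpos_of_nonneg (by linarith) hw.le
        rw [smoothTransition.zero_of_nonpos e1, deriv_zero_of_nonpos e1]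
        simpa using hpos
    calc |F' m t| ≤ _ + _ := abs_add_le _ _
      _ ≤ 5 / 4 * 4 * 64 * (1 / 4) ^ m + 2 * M * 64 * 32 * (1 / 4) ^ m := add_le_add b1 b2
      _ = _ := by ring
  · refine summable_zero.congr fun m => ?_
    unfold g1 chi
    have : (r m + w m - 1 / 2) / w m ≤ 0 := by
      apply div_nonpos_of_nonpos_of_nonneg _ (w_pos m).le
      have h1 := d_pos m
      have h2 := d_le m
      unfold r a w
      nlinarith
    rw [smoothTransition.zero_of_nonpos this, mul_zero, mul_zero]

theorem contDiff_f2 : ContDiff ℝ 1 (fun t => ∑' m, g2 m t) := by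
  obtain ⟨M, hM0, hM⟩ := exists_M
  have hst : Continuous (deriv smoothTransition) :=
    (smoothTransition.contDiff (n := 1)).continuous_deriv le_rfl
  refine c1_tsum g2 (fun m t => (v m - v (m + 1)) *
    (deriv smoothTransition ((t - b (m + 1)) / (3 / 4 * d m)) * (1 / (3 / 4 * d m))))
    (fun m => (4 / 3 * M * 64 * 4) * (1 / 16) ^ m) ?_
    (fun m t => ?_) (fun m => ?_) (fun m t => ?_) (1 / 2) ?_
  · exact (summable_geometric_of_lt_one (by norm_num) (by norm_num)).mul_left _
  · have h2 : HasDerivAt (fun t => (t - b (m + 1)) / (3 / 4 * d m)) (1 / (3 / 4 * d m)) t :=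
      ((hasDerivAt_id t).sub_const (b (m + 1))).div_const (3 / 4 * d m)
    have h4 := (hasDerivAt_st ((t - b (m + 1)) / (3 / 4 * d m))).comp t h2
    exact h4.const_mul (v m - v (m + 1))
  · exact continuous_const.mul ((hst.comp (by fun_prop)).mul continuous_const)
  · have hd := d_pos m
    have hLi := inv_Lam_le m
    have hL := Lam_pos m
    have h1 := v_succ_lt m
    have h2 := v_pos (m + 1)
    have c2 : v m ≤ (Lam m)⁻¹ := by
      unfold v
      rw [div_eq_mul_inv]
      have := d_le m
      refine mul_le_of_le_one_left (by positivity) (by linarith)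
    have c3 : 1 / (3 / 4 * d m) = 4 / 3 * 4 * 4 ^ m := by
      unfold d
      rw [one_div_pow, pow_succ]
      field_simp
    rw [abs_mul, abs_mul, abs_of_pos (by linarith : 0 < v m - v (m + 1)),
      abs_of_pos (by positivity : 0 < 1 / (3 / 4 * d m)), c3]
    have e1 := hM ((t - b (m + 1)) / (3 / 4 * d m))
    calc (v m - v (m + 1)) * (|deriv smoothTransition ((t - b (m + 1)) / (3 / 4 * d m))| *
          (4 / 3 * 4 * 4 ^ m))
        ≤ (64 * (1 / 64) ^ m) * (M * (4 / 3 * 4 * 4 ^ m)) := by
          gcongr
          linarith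
      _ = 4 / 3 * M * 64 * 4 * (4 ^ m * (1 / 64) ^ m) := by ring
      _ = 4 / 3 * M * 64 * 4 * (1 / 16) ^ m := by rw [← mul_pow]; norm_num
  · refine summable_zero.congr fun m => ?_
    unfold g2
    have : (1 / 2 - b (m + 1)) / (3 / 4 * d m) ≤ 0 := by
      have h1 := d_pos m
      have h2 := d_pos (m + 1)
      apply div_nonpos_of_nonpos_of_nonneg _ (by positivity)
      unfold b
      linarith
    rw [smoothTransition.zero_of_nonpos this, mul_zero]

theorem contDiff_f : ContDiff ℝ 1 f := contDiff_f1.add contDiff_f2

end Pool.Agent.R865.SA
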