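import Mathlib
import Pool.Agent.R865.SA.Fun

/-!
Facts about the map.
-/

open Filter Finset Topology Real

namespace Pool.Agent.R865.SA

theorem a_succ (m : ℕ) : a (m + 1) = 1 / 4 - d m / 4 := by unfold a; rw [d_succ]
theorem b_succ (m : ℕ) : b (m + 1) = 3 / 4 + d m / 4 := by unfold b; rw [d_succ]
theorem w_succ (m : ℕ) : w (m + 1) = w m / 16 := by unfold w; rw [d_succ]; ring

theorem gap (m : ℕ) : r m + w m < a (m + 1) - w (m + 1) := by
  rw [a_succ, w_succ]
  unfold r a w
  have h1 := d_pos m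
  have h2 := d_le m
  nlinarith

theorem aw_mono : Monotone (fun m => a m - w m) := monotone_nat_of_le_succ fun m => by
  have h := gap m
  have h1 := w_pos m
  have h2 := d_pos m
  unfold r at h
  linarith

theorem gap' {j k : ℕ} (h : j < k) : r j + w j < a k - w k :=
  (gap j).trans_le (aw_mono h)

theorem chi_left {m : ℕ} {t : ℝ} (h : t ≤ a m - w m) : chi m t = 0 := by
  unfold chi
  rw [smoothTransition.zero_of_nonpos
    (div_nonpos_of_nonpos_of_nonneg (by linarith) (w_pos m).le), zero_mul]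

theorem chi_right {m : ℕ} {t : ℝ} (h : r m + w m ≤ t) : chi m t = 0 := by
  unfold chi
  rw [smoothTransition.zero_of_nonpos (x := (r m + w m - t) / w m)
    (div_nonpos_of_nonpos_of_nonneg (by linarith) (w_pos m).le), mul_zero]

theorem chi_one {m : ℕ} {t : ℝ} (h1 : a m ≤ t) (h2 : t ≤ r m) : chi m t = 1 := by
  have hw := w_pos m
  unfold chi
  rw [smoothTransition.one_of_one_le, smoothTransition.one_of_one_le, mul_one]
  · rw [le_div_iff₀ hw]; linarith
  · rw [le_div_iff₀ hw]; linarith

theorem chi_nonneg (m : ℕ) (t : ℝ) : 0 ≤ chi m t :=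
  mul_nonneg (smoothTransition.nonneg _) (smoothTransition.nonneg _)

theorem chi_le_one (m : ℕ) (t : ℝ) : chi m t ≤ 1 :=
  mul_le_one₀ (smoothTransition.le_one _) (smoothTransition.nonneg _) (smoothTransition.le_one _)

noncomputable def f1 (t : ℝ) : ℝ := ∑' m, g1 m t
noncomputable def f2 (t : ℝ) : ℝ := ∑' m, g2 m t

theorem f1_eq {m : ℕ} {t : ℝ} (h : chi m t ≠ 0) : f1 t = g1 m t := by
  unfold f1
  have h1 : a m - w m < t := by
    by_contra hc; exact h (chi_left (not_lt.1 hc))
  have h2 : t < r m + w m := by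
    by_contra hc; exact h (chi_right (not_lt.1 hc))
  refine tsum_eq_single m fun k hk => ?_
  unfold g1
  rcases lt_or_gt_of_ne hk with hk | hk
  · rw [chi_right, mul_zero]
    have := gap' hk
    linarith
  · rw [chi_left, mul_zero]
    have := gap' hk
    linarith

theorem f1_zero {t : ℝ} (h : ∀ m, chi m t = 0) : f1 t = 0 := by
  unfold f1 g1
  simp [h]

theorem f1_bounds {m : ℕ} {t : ℝ} (ht : a m ≤ t) : 0 ≤ f1 t ∧ f1 t ≤ v m := by
  by_cases hz : ∀ j, chi j t = 0
  · rw [f1_zero hz]; exact ⟨le_rfl, (v_pos m).le⟩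
  · push Not at hz
    obtain ⟨j, hj⟩ := hz
    rw [f1_eq hj]
    have h1 : a j - w j < t := by
      by_contra hc; exact hj (chi_left (not_lt.1 hc))
    have h2 : t < r j + w j := by
      by_contra hc; exact hj (chi_right (not_lt.1 hc))
    have h3 : m ≤ j := by
      by_contra hc
      push Not at hc
      have := gap' hc
      have := w_pos m
      linarith
    obtain ⟨l0, l1⟩ := lam_bound j t h1.le h2.le
    have c0 := chi_nonneg j t
    have c1 := chi_le_one j t
    unfold g1
    refine ⟨mul_nonneg l0 c0, ?_⟩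
    calc lam j t * chi j t ≤ v j * 1 := mul_le_mul l1 c1 c0 (v_pos j).le
      _ ≤ v m := by rw [mul_one]; exact v_anti h3

theorem f1_mid {t : ℝ} (ht : 1 / 4 ≤ t) : f1 t = 0 := by
  apply f1_zero
  intro m
  apply chi_right
  have h1 := d_pos m
  have h2 := d_le m
  unfold r a w
  nlinarith

theorem g2_nonneg (m : ℕ) (t : ℝ) : 0 ≤ g2 m t :=
  mul_nonneg (by have := v_succ_lt m; linarith) (smoothTransition.nonneg _)

theorem g2_le (m : ℕ) (t : ℝ) : g2 m t ≤ v m - v (m + 1) :=
  mul_le_of_le_one_right (by have := v_succ_lt m; linarith) (smoothTransition.le_one _)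

theorem g2_mono (m : ℕ) : Monotone (g2 m) := by
  intro s t hst
  unfold g2
  refine mul_le_mul_of_nonneg_left (smoothTransition.monotone ?_) (by
    have := v_succ_lt m; linarith)
  have := d_pos m
  gcongr

theorem g2_left {m : ℕ} {t : ℝ} (h : t ≤ b (m + 1)) : g2 m t = 0 := by
  unfold g2
  have := d_pos m
  rw [smoothTransition.zero_of_nonpos (div_nonpos_of_nonpos_of_nonneg (by linarith)
    (by positivity)), mul_zero]

theorem g2_right {m : ℕ} {t : ℝ} (h : b m ≤ t) : g2 m t = v m - v (m + 1) := by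
  unfold g2
  have := d_pos m
  rw [smoothTransition.one_of_one_le, mul_one]
  rw [le_div_iff₀ (by positivity), b_succ]
  unfold b at h
  linarith

theorem v_tendsto : Tendsto v atTop (𝓝 0) := by
  refine squeeze_zero (fun m => (v_pos m).le) (g := fun m => 64 * (1 / 64 : ℝ) ^ m) (fun m => ?_) ?_
  · refine le_trans ?_ (inv_Lam_le m)
    unfold v
    rw [div_eq_mul_inv]
    have := d_le m
    have hL := Lam_pos m
    exact mul_le_of_le_one_left (by positivity) (by linarith)
  · have := (tendsto_pow_atTop_nhds_zero_of_lt_one (r := (1 / 64 : ℝ)) (by norm_num)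
      (by norm_num)).const_mul 64
    simpa using this

theorem hasSum_tail (m : ℕ) : HasSum (fun j => v (j + m) - v (j + m + 1)) (v m) := by
  rw [hasSum_iff_tendsto_nat_of_nonneg (fun j => by
    have := v_succ_lt (j + m); linarith)]
  have h1 : ∀ n, ∑ i ∈ range n, (v (i + m) - v (i + m + 1)) = v m - v (n + m) := by
    intro n
    have := Finset.sum_range_sub' (fun i => v (i + m)) n
    simp only [zero_add] at this
    rw [← this]
    refine sum_congr rfl fun i _ => ?_
    congr 2
    ring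
  simp only [h1]
  have h2 : Tendsto (fun n => v (n + m)) atTop (𝓝 0) := (tendsto_add_atTop_iff_nat m).2 v_tendsto
  have := (tendsto_const_nhds (x := v m)).sub h2
  simpa using this

theorem summable_g2 (t : ℝ) : Summable fun m => g2 m t :=
  Summable.of_nonneg_of_le (fun m => g2_nonneg m t) (fun m => g2_le m t) (by
    have := (hasSum_tail 0).summable
    simpa using this)

theorem b_anti : Antitone b := antitone_nat_of_succ_le fun m => by
  unfold b; rw [d_succ]; have := d_pos m; linarith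

theorem a_mono : Monotone a := monotone_nat_of_le_succ fun m => by
  unfold a; rw [d_succ]; have := d_pos m; linarith

theorem f2_b (m : ℕ) : f2 (b m) = v m := by
  unfold f2
  rw [← (summable_g2 (b m)).sum_add_tsum_nat_add m]
  have h1 : ∑ i ∈ range m, g2 i (b m) = 0 := sum_eq_zero fun i hi =>
    g2_left (b_anti (mem_range.1 hi))
  rw [h1, zero_add]
  have h2 : (fun i => g2 (i + m) (b m)) = fun j => v (j + m) - v (j + m + 1) := funext fun i =>
    g2_right (b_anti (by omega))
  rw [h2]
  exact (hasSum_tail m).tsum_eq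

theorem f2_nonneg (t : ℝ) : 0 ≤ f2 t := tsum_nonneg fun m => g2_nonneg m t

theorem f2_le {m : ℕ} {t : ℝ} (h : t ≤ b m) : f2 t ≤ v m := by
  rw [← f2_b m]
  exact (summable_g2 t).tsum_le_tsum (fun i => g2_mono i h) (summable_g2 _)

theorem f2_left {t : ℝ} (h : t ≤ 3 / 4) : f2 t = 0 := by
  unfold f2
  have : ∀ m, g2 m t = 0 := fun m => g2_left (by
    unfold b; have := d_pos (m + 1); linarith)
  simp [this]

theorem f_eq (t : ℝ) : f t = f1 t + f2 t := rfl

theorem f_bounds {m : ℕ} {t : ℝ} (h1 : a m ≤ t) (h2 : t ≤ b m) : 0 ≤ f t ∧ f t ≤ v m := by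
  rw [f_eq]
  rcases le_or_gt t (3 / 4) with h | h
  · rw [f2_left h, add_zero]; exact f1_bounds h1
  · rw [f1_mid (by linarith), zero_add]; exact ⟨f2_nonneg t, f2_le h2⟩

theorem f_mid {t : ℝ} (h1 : 1 / 4 ≤ t) (h2 : t ≤ 3 / 4) : f t = 0 := by
  rw [f_eq, f1_mid h1, f2_left h2, add_zero]

theorem f_L {m : ℕ} {t : ℝ} (h1 : a m ≤ t) (h2 : t ≤ r m) : f t = lam m t := by
  rw [f_eq, f1_eq (m := m) (by rw [chi_one h1 h2]; exact one_ne_zero), f2_left, add_zero]
  · unfold g1; rw [chi_one h1 h2, mul_one]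
  · unfold r a at h2
    have := d_pos m
    linarith

theorem f_b (m : ℕ) : f (b m) = v m := by
  rw [f_eq, f1_mid, zero_add, f2_b]
  unfold b; have := d_pos m; linarith

theorem a_zero : a 0 = 0 := by unfold a d; norm_num
theorem b_zero : b 0 = 1 := by unfold b d; norm_num
theorem v_zero : v 0 = 1 := by unfold v d Lam; norm_num

theorem f_maps {t : ℝ} (h : t ∈ Set.Icc (0 : ℝ) 1) : f t ∈ Set.Icc (0 : ℝ) 1 := by
  have := f_bounds (m := 0) (t := t) (by rw [a_zero]; exact h.1) (by rw [b_zero]; exact h.2)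
  rw [v_zero] at this
  exact this

/-! ### iterates -/

theorem Lam_succ (m : ℕ) : Lam (m + 1) = Lam m * S m := rfl

/-- (1) -/
theorem iter_pred (m : ℕ) : ∀ u : ℝ, 0 ≤ u → u ≤ v m → f^[2 ^ m - 1] u = a m + Lam m * u := by
  induction m with
  | zero =>
    intro u _ _
    rw [a_zero]; simp [Lam]
  | succ m ih =>
    intro u hu0 hu1
    have hL := Lam_pos m
    have hS := S_pos m
    have hd := d_pos m
    have hd' := d_le m
    have hdS := d_mul_S m
    have h1 := ih u hu0 (hu1.trans (v_succ_lt m).le)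
    have h2 : Lam m * u ≤ d m / 2 := by
      rw [← Lam_v_succ m]
      exact mul_le_mul_of_nonneg_left hu1 hL.le
    have h3 : 0 ≤ Lam m * u := by positivity
    have h4 : f (a m + Lam m * u) = lam m (a m + Lam m * u) :=
      f_L (by linarith) (by unfold r; linarith)
    set u' := lam m (a m + Lam m * u) with hu'
    have h5 : Lam m * u' = 3 / 4 * d m + Lam m * u * S m := by
      rw [hu']; unfold lam
      field_simp
      ring
    have h6 : Lam m * u * S m ≤ d m / 2 * S m := mul_le_mul_of_nonneg_right h2 hS.le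
    have h7 : d m / 2 * S m = (1 + d m) / 2 := by rw [div_mul_eq_mul_div, hdS]
    have h8 : 0 ≤ Lam m * u * S m := by positivity
    have h9 : 0 ≤ u' := by
      have : 0 ≤ Lam m * u' := by rw [h5]; linarith
      exact nonneg_of_mul_nonneg_right this hL
    have h10 : u' ≤ v m := by
      have : Lam m * u' ≤ Lam m * v m := by rw [h5, Lam_v]; linarith
      exact le_of_mul_le_mul_left this hL
    have h11 := ih u' h9 h10
    have e : 2 ^ (m + 1) - 1 = (2 ^ m - 1) + (1 + (2 ^ m - 1)) := by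
      have : 0 < 2 ^ m := by positivity
      rw [pow_succ]; omega
    have h12 : f^[1] (a m + Lam m * u) = u' := h4
    rw [e, Function.iterate_add_apply, Function.iterate_add_apply, h1, h12, h11, h5, Lam_succ,
      a_succ]
    unfold a
    ring

/-- the interval `K m` -/
def K (m : ℕ) : Set ℝ := Set.Icc (a m) (b m)
/-- the interval `L m` -/
def L (m : ℕ) : Set ℝ := Set.Icc (a m) (r m)

theorem K_anti : Antitone K := fun _ _ h => Set.Icc_subset_Icc (a_mono h) (b_anti h)

theorem F_eq {m : ℕ} {t : ℝ} (h : t ∈ K m) : f^[2 ^ m] t = a m + Lam m * f t := by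
  have hb := f_bounds h.1 h.2
  have e : 2 ^ m = (2 ^ m - 1) + 1 := by
    have : 0 < 2 ^ m := by positivity
    omega
  rw [e, Function.iterate_add_apply, Function.iterate_one]
  exact iter_pred m _ hb.1 hb.2

theorem F_K {m : ℕ} {t : ℝ} (h : t ∈ K m) : f^[2 ^ m] t ∈ K m := by
  rw [F_eq h]
  have hb := f_bounds h.1 h.2
  have hL := Lam_pos m
  have h1 : Lam m * f t ≤ Lam m * v m := mul_le_mul_of_nonneg_left hb.2 hL.le
  have h2 : 0 ≤ Lam m * f t := mul_nonneg hL.le hb.1
  rw [Lam_v] at h1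
  constructor
  · linarith
  · unfold a b; linarith

theorem F_K_succ {m : ℕ} {t : ℝ} (h : t ∈ K (m + 1)) : f^[2 ^ m] t ∈ L m := by
  rw [F_eq (K_anti (Nat.le_succ m) h)]
  have hb := f_bounds h.1 h.2
  have hL := Lam_pos m
  have h1 : Lam m * f t ≤ Lam m * v (m + 1) := mul_le_mul_of_nonneg_left hb.2 hL.le
  have h2 : 0 ≤ Lam m * f t := mul_nonneg hL.le hb.1
  rw [Lam_v_succ] at h1
  constructor
  · linarith
  · unfold r; linarith

theorem L_sub {m : ℕ} {t : ℝ} (h : t ∈ L m) : t ∈ K m := by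
  refine ⟨h.1, h.2.trans ?_⟩
  unfold r a b
  have := d_pos m
  linarith

theorem F_L {m : ℕ} {t : ℝ} (h : t ∈ L m) : f^[2 ^ m] t ∈ K (m + 1) := by
  rw [F_eq (L_sub h), f_L h.1 h.2]
  have hL := Lam_pos m
  have hS := S_pos m
  have hd := d_pos m
  have hdS := d_mul_S m
  have e : Lam m * lam m t = 3 / 4 * d m + (t - a m) * S m := by
    unfold lam; field_simp
  rw [e]
  have h1 : 0 ≤ (t - a m) * S m := mul_nonneg (by linarith [h.1]) hS.le
  have h2 : (t - a m) * S m ≤ d m / 2 * S m := by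
    apply mul_le_mul_of_nonneg_right _ hS.le
    have := h.2
    unfold r at this
    linarith
  have h3 : d m / 2 * S m = (1 + d m) / 2 := by rw [div_mul_eq_mul_div, hdS]
  have ha : a m = 1 / 4 - d m := rfl
  constructor
  · rw [a_succ]; linarith
  · rw [b_succ]; linarith

theorem L_K_disj {m : ℕ} {t : ℝ} (h : t ∈ L m) (h' : t ∈ K (m + 1)) : False := by
  have h1 := h.2
  have h2 := h'.1
  have h3 := gap m
  have := w_pos m
  have := w_pos (m + 1)
  linarith

theorem dvd_of_return (m : ℕ) : ∀ (t : ℝ) (i : ℕ), t ∈ K m → f^[i] t ∈ K m → 2 ^ m ∣ i := by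
  induction m with
  | zero => intro t i _ _; simp
  | succ m ih =>
    intro t i h1 h2
    obtain ⟨j, rfl⟩ := ih t i (K_anti (Nat.le_succ m) h1) (K_anti (Nat.le_succ m) h2)
    have key : ∀ j : ℕ, (Even j → (f^[2 ^ m])^[j] t ∈ K (m + 1)) ∧
        (¬ Even j → (f^[2 ^ m])^[j] t ∈ L m) := by
      intro j
      induction j with
      | zero => exact ⟨fun _ => h1, fun h => absurd Even.zero h⟩
      | succ j ihj =>
        rw [Function.iterate_succ_apply']
        constructor
        · intro h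
          rw [Nat.even_add_one] at h
          exact F_L (ihj.2 h)
        · intro h
          rw [Nat.even_add_one, not_not] at h
          exact F_K_succ (ihj.1 h)
    rw [Function.iterate_mul] at h2
    by_cases he : Even j
    · obtain ⟨k, hk⟩ := he
      rw [hk, pow_succ]
      exact ⟨k, by ring⟩
    · exact absurd h2 fun h => L_K_disj ((key j).2 he) h

/-! ### the special alpha-limit set -/

/-- backward orbit branches in `[0,1]` -/
def Branch (f : ℝ → ℝ) (x : ℝ) (u : ℕ → ℝ) : Prop :=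
  (∀ n, u n ∈ Set.Icc (0 : ℝ) 1) ∧ u 0 = x ∧ ∀ n, f (u (n + 1)) = u n

/-- the special alpha-limit set -/
def specialAlpha (f : ℝ → ℝ) (x : ℝ) : Set ℝ :=
  {y | y ∈ Set.Icc (0 : ℝ) 1 ∧ ∃ u : ℕ → ℝ, Branch f x u ∧ ∃ φ : ℕ → ℕ, StrictMono φ ∧
    Tendsto (fun k => u (φ k)) atTop (𝓝 y)}

theorem branch_iter {g : ℝ → ℝ} {x : ℝ} {u : ℕ → ℝ} (h : Branch g x u) (n k : ℕ) :
    g^[k] (u (n + k)) = u n := by
  induction k with
  | zero => rfl
  | succ k ih =>
    rw [Function.iterate_succ_apply, ← add_assoc, h.2.2, ih]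

theorem not_mem : (3 / 4 : ℝ) ∉ specialAlpha f (1 / 2) := by
  rintro ⟨-, u, hu, φ, hφ, hlim⟩
  have hhalf : ∀ m, (1 / 2 : ℝ) ∈ K m := fun m => by
    have := d_pos m
    constructor
    · unfold a; linarith
    · unfold b; linarith
  -- the branch visits `K m` at large times
  have hvis : ∀ m N, ∃ n, N ≤ n ∧ u n ∈ K m := by
    intro m N
    have h1 : K m ∈ 𝓝 (3 / 4 : ℝ) := by
      have := d_pos m
      apply Icc_mem_nhds
      · unfold a; linarith
      · unfold b; linarith
    obtain ⟨k, hk, hk'⟩ := ((hlim.eventually h1).and (eventually_ge_atTop N)).exists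
    exact ⟨φ k, hk'.trans (hφ.id_le k), hk⟩
  have hK : ∀ m k, 2 ^ m ∣ k → u k ∈ K m := by
    intro m k hk
    obtain ⟨n, hn, hn'⟩ := hvis m k
    have h1 : f^[n] (u n) = 1 / 2 := by
      have := branch_iter hu 0 n
      rw [zero_add] at this
      rw [this, hu.2.1]
    have h2 : 2 ^ m ∣ n := dvd_of_return m (u n) n hn' (by rw [h1]; exact hhalf m)
    obtain ⟨j, hj⟩ : 2 ^ m ∣ n - k := Nat.dvd_sub h2 hk
    have h3 : f^[n - k] (u n) = u k := by
      have := branch_iter hu k (n - k)
      rwa [Nat.add_sub_cancel' hn] at this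
    rw [← h3, hj, Function.iterate_mul]
    clear h3 hj
    induction j with
    | zero => exact hn'
    | succ j ih => rw [Function.iterate_succ_apply']; exact F_K ih
  have hlt : ∀ k, 1 ≤ k → u k < 1 / 4 := by
    intro k hk
    obtain ⟨n, hn1, hn2⟩ : ∃ n, 2 ^ n ∣ k ∧ ¬ 2 ^ (n + 1) ∣ k := by
      obtain ⟨n, m, hm, hkm⟩ := Nat.exists_eq_two_pow_mul_odd (n := k) (by omega)
      refine ⟨n, ⟨m, hkm⟩, ?_⟩
      rintro ⟨j, hj⟩
      rw [hkm, pow_succ, mul_assoc] at hj
      have := Nat.eq_of_mul_eq_mul_left (by positivity) hj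
      rw [this] at hm
      exact (Nat.not_odd_iff_even.2 (even_two_mul j)) hm
    have h1 : 2 ^ (n + 1) ∣ k + 2 ^ n := by
      obtain ⟨j, rfl⟩ := hn1
      have hj : ¬ 2 ∣ j := fun ⟨i, hi⟩ => hn2 ⟨i, by rw [hi, pow_succ]; ring⟩
      obtain ⟨i, hi⟩ : ∃ i, j = 2 * i + 1 := ⟨j / 2, by omega⟩
      exact ⟨i + 1, by rw [hi, pow_succ]; ring⟩
    have h2 := hK (n + 1) _ h1
    have h3 := F_K_succ h2
    rw [branch_iter hu k (2 ^ n)] at h3
    have h4 := h3.2
    unfold r a at h4
    have := d_pos n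
    linarith
  have : (3 / 4 : ℝ) ≤ 1 / 4 := by
    refine le_of_tendsto hlim ?_
    filter_upwards [eventually_ge_atTop 1] with k hk
    exact (hlt (φ k) (hk.trans (hφ.id_le k))).le
  norm_num at this

theorem f_cont : Continuous f := contDiff_f.continuous

theorem iter_maps (k : ℕ) {t : ℝ} (h : t ∈ Set.Icc (0 : ℝ) 1) : f^[k] t ∈ Set.Icc (0 : ℝ) 1 := by
  induction k with
  | zero => exact h
  | succ k ih => rw [Function.iterate_succ_apply']; exact f_maps ih

theorem exists_mem (m : ℕ) : ∃ y ∈ Set.Icc (b (m + 1)) (b m), y ∈ specialAlpha f (1 / 2) := by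
  set F : ℝ → ℝ := f^[2 ^ m] with hF
  have hFc : Continuous F := f_cont.iterate _
  set c : ℝ := b (m + 1) with hc
  have hcb : c ≤ b m := b_anti (Nat.le_succ m)
  have hc34 : 3 / 4 < c := by rw [hc, b_succ]; have := d_pos m; linarith
  have hcK : c ∈ K (m + 1) := ⟨by rw [a_succ]; have := d_pos m; linarith, le_rfl⟩
  have hbK : b m ∈ K m := ⟨by unfold a b; have := d_pos m; linarith, le_rfl⟩
  have hFc' : F c < 1 / 4 := by
    have h1 := (F_K_succ hcK).2
    have := d_pos m
    unfold r a at h1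
    exact lt_of_le_of_lt h1 (by linarith)
  have hFb : F (b m) = b m := by
    rw [hF, F_eq hbK, f_b, Lam_v]
    unfold a b; ring
  have hcomp : IsCompact (Set.Icc c (b m) ∩ {t | F t = t}) :=
    isCompact_Icc.inter_right (isClosed_eq hFc continuous_id)
  obtain ⟨y, hy, hymin⟩ := hcomp.exists_isLeast ⟨b m, ⟨hcb, le_rfl⟩, hFb⟩
  have hyF : F y = y := hy.2
  have hcy : c < y := by
    rcases lt_or_eq_of_le hy.1.1 with h | h
    · exact h
    · exfalso; rw [← h] at hyF; linarith
  have hlt : ∀ t, c ≤ t → t < y → F t < t := by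
    intro t h1 h2
    by_contra hcon
    push Not at hcon
    have h3 := intermediate_value_Icc h1 (f := fun s => F s - s)
      (hFc.sub continuous_id).continuousOn
    obtain ⟨s, hs, hs'⟩ := h3 (show (0 : ℝ) ∈ Set.Icc (F c - c) (F t - t) from
      ⟨by linarith, by linarith⟩)
    have h4 := hymin (show s ∈ Set.Icc c (b m) ∩ {t | F t = t} from
      ⟨⟨hs.1, by linarith [hs.2, hy.1.2]⟩, by
        have : F s - s = 0 := hs'
        show F s = s
        linarith⟩)
    linarith [hs.2]
  have hstep : ∀ z, F c ≤ z → z < y → ∃ t, c ≤ t ∧ t < y ∧ F t = z := by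
    intro z h1 h2
    have h3 := intermediate_value_Icc hcy.le (f := F) hFc.continuousOn
    obtain ⟨t, ht, ht'⟩ := h3 (show z ∈ Set.Icc (F c) (F y) from ⟨h1, by rw [hyF]; exact h2.le⟩)
    refine ⟨t, ht.1, lt_of_le_of_ne ht.2 ?_, ht'⟩
    intro h
    rw [h, hyF] at ht'
    linarith
  choose! st hst1 hst2 hst3 using hstep
  let T : ℕ → ℝ := fun k => Nat.rec (1 / 2) (fun _ z => st z) k
  have hT0 : T 0 = 1 / 2 := rfl
  have hTs : ∀ k, T (k + 1) = st (T k) := fun k => rfl
  have hT : ∀ k, F c ≤ T k ∧ T k < y := by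
    intro k
    induction k with
    | zero => rw [hT0]; exact ⟨by linarith, by linarith⟩
    | succ k ih =>
      rw [hTs]
      have h1 := hst1 _ ih.1 ih.2
      exact ⟨by linarith, hst2 _ ih.1 ih.2⟩
  have hTc : ∀ k, c ≤ T (k + 1) := fun k => hst1 _ (hT k).1 (hT k).2
  have hTF : ∀ k, F (T (k + 1)) = T k := fun k => hst3 _ (hT k).1 (hT k).2
  have hTmono : Monotone T := monotone_nat_of_le_succ fun k => by
    have := hlt _ (hTc k) (hT (k + 1)).2
    rw [hTF] at this
    exact this.le
  have hbdd : BddAbove (Set.range T) := ⟨y, by rintro _ ⟨k, rfl⟩; exact (hT k).2.le⟩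
  have hlim := tendsto_atTop_ciSup hTmono hbdd
  set l := ⨆ k, T k with hl
  have hly : l = y := by
    have h1 : F l = l := by
      have h2 : Tendsto (fun k => F (T (k + 1))) atTop (𝓝 (F l)) :=
        (hFc.tendsto l).comp ((tendsto_add_atTop_iff_nat 1).2 hlim)
      simp only [hTF] at h2
      exact tendsto_nhds_unique h2 hlim
    have h2 : l ≤ y := le_of_tendsto' hlim fun k => (hT k).2.le
    have h3 : c ≤ l := ge_of_tendsto ((tendsto_add_atTop_iff_nat 1).2 hlim)
      (Eventually.of_forall hTc)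
    by_contra hne
    have := hlt l h3 (lt_of_le_of_ne h2 hne)
    linarith
  rw [hly] at hlim
  have hy1 : y ≤ 1 := hy.1.2.trans (by rw [← b_zero]; exact b_anti (Nat.zero_le m))
  have hp : 0 < 2 ^ m := by positivity
  have hTI : ∀ k, T (k + 1) ∈ Set.Icc (0 : ℝ) 1 := fun k =>
    ⟨by linarith [hTc k], by linarith [(hT (k + 1)).2]⟩
  set p := 2 ^ m with hpd
  let u : ℕ → ℝ := fun n => f^[p * (n / p + 1) - n] (T (n / p + 1))
  have hup : ∀ k, u (p * k) = T k := by
    intro k
    simp only [u]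
    rw [Nat.mul_div_cancel_left k hp]
    have : p * (k + 1) - p * k = p := by rw [mul_add, mul_one]; omega
    rw [this]
    exact hTF k
  refine ⟨y, ⟨hcy.le, hy.1.2⟩, ⟨by linarith, hy1⟩, u, ⟨fun n => iter_maps _ (hTI _), ?_,
    fun n => ?_⟩, fun k => p * k, fun i j hij => Nat.mul_lt_mul_of_pos_left hij hp, ?_⟩
  · have := hup 0
    rw [mul_zero] at this
    rw [this, hT0]
  · have h1 : p * (n / p) + n % p = n := Nat.div_add_mod n p
    have h2 : n % p < p := Nat.mod_lt n hp
    rcases lt_or_ge (n % p + 1) p with h | h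
    · have h3 : (n + 1) / p = n / p := by
        have h4 : n + 1 = p * (n / p) + (n % p + 1) := by omega
        rw [h4, Nat.mul_add_div hp, Nat.div_eq_of_lt h, add_zero]
      have h4 : p * (n / p + 1) = p * (n / p) + p := by ring
      have h5 : p * (n / p + 1) - n = (p * (n / p + 1) - (n + 1)) + 1 := by omega
      show f (f^[p * ((n + 1) / p + 1) - (n + 1)] (T ((n + 1) / p + 1))) =
        f^[p * (n / p + 1) - n] (T (n / p + 1))
      rw [h3, h5, Function.iterate_succ_apply']
    · have h3 : n + 1 = p * (n / p + 1) := by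
        have h4 : p * (n / p + 1) = p * (n / p) + p := by ring
        omega
      rw [h3, hup]
      simp only [u]
      have h5 : p * (n / p + 1) - n = 1 := by omega
      rw [h5, Function.iterate_one]
  · simp only [hup]
    exact hlim

theorem not_closed : ¬ IsClosed (specialAlpha f (1 / 2)) := by
  intro h
  choose y hy hy' using exists_mem
  apply not_mem
  have hd : Tendsto d atTop (𝓝 0) := by
    have : Tendsto (fun m => (1 / 4 : ℝ) ^ m) atTop (𝓝 0) :=
      tendsto_pow_atTop_nhds_zero_of_lt_one (by norm_num) (by norm_num)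
    exact (tendsto_add_atTop_iff_nat 1).2 this
  have hb : Tendsto b atTop (𝓝 (3 / 4)) := by
    have := (tendsto_const_nhds (x := (3 / 4 : ℝ))).add hd
    rw [add_zero] at this
    exact this
  have hlim : Tendsto y atTop (𝓝 (3 / 4)) :=
    tendsto_of_tendsto_of_tendsto_of_le_of_le ((tendsto_add_atTop_iff_nat 1).2 hb) hb
      (fun m => (hy m).1) (fun m => (hy m).2)
  exact h.mem_of_tendsto hlim (Eventually.of_forall hy')

end Pool.Agent.R865.SA
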